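import Pool.Agent.K4H25.GQ.Ab
import Pool.Agent.W619.Y.Final
import Pool.Agent.W619.Y.LMain
import Pool.Agent.R882.TFin
import Pool.Agent.R885.W9

/-!
Finite abelian groups acting on products of curves, with rational quotients of the curves.
-/

set_option autoImplicit false
set_option linter.overlappingInstances false
set_option linter.unusedSectionVars false
set_option linter.unusedVariables false
set_option maxHeartbeats 4000000
set_option synthInstance.maxHeartbeats 400000

open FF IntermediateField Pool.Agent.R885 Pool.Agent.R885.N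

namespace Pool.Agent.K4H25.GQ

section

variable {M : Type} [Field M] [Algebra ℂ M]

theorem poly_factor {τ : M} {p : Polynomial ℂ} (hp : p ≠ 0) :
    Polynomial.aeval τ p = algebraMap ℂ M p.leadingCoeff *
      ∏ a ∈ p.roots.toFinset, (τ - algebraMap ℂ M a) ^ p.roots.count a := by
  classical
  have h1 := IsAlgClosed.splits p
  have h2 : p = Polynomial.C p.leadingCoeff * (p.roots.map fun a => Polynomial.X - Polynomial.C a).prod :=
    h1.eq_prod_roots
  conv_lhs => rw [h2]
  rw [map_mul, Polynomial.aeval_C, map_multiset_prod, Multiset.map_map,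
    Finset.prod_multiset_map_count]
  congr 1
  refine Finset.prod_congr rfl fun a _ => ?_
  rw [Function.comp_apply, map_sub, Polynomial.aeval_X, Polynomial.aeval_C]

theorem rat_factor {τ : M} (hτ : Transcendental ℂ τ) {f : M} (hf : f ∈ ℂ⟮τ⟯) (hf0 : f ≠ 0) :
    ∃ (T : Finset ℂ) (c : ℂ) (m : ℂ → ℤ), (∀ a, a ∉ T → m a = 0) ∧
      f = algebraMap ℂ M c * ∏ a ∈ T, (τ - algebraMap ℂ M a) ^ m a := by
  classical
  have hne : ∀ a : ℂ, τ - algebraMap ℂ M a ≠ 0 := by
    intro a h
    apply hτ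
    rw [sub_eq_zero.1 h]
    exact isAlgebraic_algebraMap a
  obtain ⟨r, s, hrs⟩ := (IntermediateField.mem_adjoin_simple_iff ℂ f).1 hf
  have hr : r ≠ 0 := by
    rintro rfl
    rw [map_zero, zero_div] at hrs
    exact hf0 hrs
  have hs : s ≠ 0 := by
    rintro rfl
    rw [map_zero, div_zero] at hrs
    exact hf0 hrs
  refine ⟨r.roots.toFinset ∪ s.roots.toFinset, r.leadingCoeff / s.leadingCoeff,
    fun a => (r.roots.count a : ℤ) - s.roots.count a, ?_, ?_⟩
  · intro a ha
    rw [Finset.mem_union, Multiset.mem_toFinset, Multiset.mem_toFinset] at ha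
    push Not at ha
    beta_reduce
    rw [Multiset.count_eq_zero_of_notMem ha.1, Multiset.count_eq_zero_of_notMem ha.2]
    norm_num
  · have h1 : ∀ (p : Polynomial ℂ), p.roots.toFinset ⊆ r.roots.toFinset ∪ s.roots.toFinset →
        ∏ a ∈ p.roots.toFinset, (τ - algebraMap ℂ M a) ^ p.roots.count a =
          ∏ a ∈ r.roots.toFinset ∪ s.roots.toFinset, (τ - algebraMap ℂ M a) ^ p.roots.count a := by
      intro p hp
      refine Finset.prod_subset hp fun a _ ha => ?_
      rw [Multiset.mem_toFinset] at ha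
      rw [Multiset.count_eq_zero_of_notMem ha, pow_zero]
    rw [hrs, poly_factor hr, poly_factor hs, h1 r Finset.subset_union_left,
      h1 s Finset.subset_union_right, map_div₀, mul_div_mul_comm, ← Finset.prod_div_distrib]
    congr 1
    refine Finset.prod_congr rfl fun a _ => ?_
    rw [zpow_sub₀ (hne a), zpow_natCast, zpow_natCast]

variable {n : ℕ}

/-- an invariant product -/
theorem prods_factor {G : Subgroup (M ≃ₐ[ℂ] M)} [Finite G] {C : Fin n → IntermediateField ℂ M}
    {τ : Fin n → M} (hτ : ∀ i, ℂ⟮τ i⟯ = C i ⊓ fixedField G)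
    (htr : ∀ i, Transcendental ℂ (τ i)) {x : M} (hx : x ∈ Prods G C) (hx0 : x ≠ 0) :
    ∃ (T : Finset ℂ) (c : ℂ) (m : Fin n → ℂ → ℤ), (∀ i, ∀ a, a ∉ T → m i a = 0) ∧
      x ^ Nat.card G = algebraMap ℂ M c * ∏ i, ∏ a ∈ T, (τ i - algebraMap ℂ M a) ^ m i a := by
  classical
  obtain ⟨z, hz, rfl⟩ := hx
  have hz0 : ∀ i, z i ≠ 0 := fun i => Finset.prod_ne_zero_iff.1 hx0 i (Finset.mem_univ i)
  have h1 : ∀ i, z i ^ Nat.card G ∈ ℂ⟮τ i⟯ := by
    intro i
    rw [hτ i]
    exact ⟨pow_mem (hz i).1 _, semi_pow (hz0 i) (hz i).2⟩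
  choose T c m hm hf using fun i => rat_factor (htr i) (h1 i) (pow_ne_zero _ (hz0 i))
  refine ⟨Finset.univ.biUnion T, ∏ i, c i, m, ?_, ?_⟩
  · intro i a ha
    exact hm i a fun h => ha (Finset.mem_biUnion.2 ⟨i, Finset.mem_univ i, h⟩)
  · rw [← Finset.prod_pow, map_prod, ← Finset.prod_mul_distrib]
    refine Finset.prod_congr rfl fun i _ => ?_
    rw [hf i]
    congr 1
    refine Finset.prod_subset (Finset.subset_biUnion_of_mem T (Finset.mem_univ i))
      fun a _ ha => ?_
    rw [hm i a ha, zpow_zero]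

/-- finitely many of the generators suffice -/
theorem exists_finite_gen {K : IntermediateField ℂ M} [Algebra.EssFiniteType ℂ K] {P : Set M}
    (hP : P ⊆ K) (h : ∀ x ∈ K, x ∈ IntermediateField.adjoin ℂ P) :
    ∃ X : Finset K, (∀ x ∈ X, (x : M) ∈ P ∧ x ≠ 0) ∧
      IntermediateField.adjoin ℂ (X : Set K) = ⊤ := by
  classical
  obtain ⟨s, hs⟩ := IntermediateField.fg_top ℂ K
  -- finite subsets for the generators
  have h1 : ∀ x : s, ∃ T : Finset M, (T : Set M) ⊆ P ∧
      ((x : K) : M) ∈ IntermediateField.adjoin ℂ (T : Set M) := fun x =>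
    IntermediateField.exists_finset_of_mem_adjoin (h _ (x : K).2)
  choose T hTP hT using h1
  let U : Finset M := (Finset.univ.biUnion T).erase 0
  have hUP : (U : Set M) ⊆ P := by
    intro x hx
    obtain ⟨-, hx⟩ := Finset.mem_erase.1 (Finset.mem_coe.1 hx)
    obtain ⟨y, -, hy⟩ := Finset.mem_biUnion.1 hx
    exact hTP y hy
  have hU0 : ∀ x ∈ U, x ≠ 0 := fun x hx => (Finset.mem_erase.1 hx).1
  let X : Finset K := U.attach.image fun x => ⟨x.1, hP (hUP x.2)⟩
  have hXU : ∀ x ∈ X, (x : M) ∈ U := by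
    intro x hx
    obtain ⟨y, -, rfl⟩ := Finset.mem_image.1 hx
    exact y.2
  refine ⟨X, fun x hx => ⟨hUP (hXU x hx), fun h0 => hU0 _ (hXU x hx) (by rw [h0]; rfl)⟩, ?_⟩
  rw [eq_top_iff, ← hs, IntermediateField.adjoin_le_iff]
  intro x hx
  have h2 : (x : M) ∈ IntermediateField.adjoin ℂ (U : Set M) := by
    have h3 := hT ⟨x, hx⟩
    refine (IntermediateField.adjoin_le_iff.2 ?_ : IntermediateField.adjoin ℂ
      (T ⟨x, hx⟩ : Set M) ≤ IntermediateField.adjoin ℂ (U : Set M)) h3
    intro y hy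
    by_cases hy0 : y = 0
    · rw [hy0]
      exact zero_mem _
    · refine IntermediateField.subset_adjoin _ _ ?_
      exact Finset.mem_coe.2 (Finset.mem_erase.2 ⟨hy0, Finset.mem_biUnion.2
        ⟨⟨x, hx⟩, Finset.mem_univ _, hy⟩⟩)
  have h4 : IntermediateField.lift (IntermediateField.adjoin ℂ (X : Set K)) =
      IntermediateField.adjoin ℂ (U : Set M) := by
    rw [IntermediateField.lift_adjoin]
    congr 1
    ext y
    constructor
    · rintro ⟨z, hz, rfl⟩
      exact hXU z hz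
    · intro hy
      exact ⟨⟨y, hP (hUP hy)⟩, Finset.mem_coe.2 (Finset.mem_image.2
        ⟨⟨y, hy⟩, Finset.mem_attach _ _, rfl⟩), rfl⟩
  rw [← h4] at h2
  exact (IntermediateField.mem_lift x).1 h2

/-- **Abelian product-quotient varieties with rational quotients of the curves.** -/
theorem abelian_rational (hn : 1 ≤ n) (htr : Algebra.trdeg ℂ M = (n : ℕ))
    [Algebra.EssFiniteType ℂ M] (C : Fin n → IntermediateField ℂ M) [hC : ∀ i, IsFF ℂ (C i)]
    (hgen : ⨆ i, C i = ⊤) (G : Subgroup (M ≃ₐ[ℂ] M)) [Finite G]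
    (hab : ∀ g ∈ G, ∀ h ∈ G, g * h = h * g) (hst : ∀ g ∈ G, ∀ i, ∀ z ∈ C i, g z ∈ C i)
    (τ : Fin n → M) (hτ : ∀ i, ℂ⟮τ i⟯ = C i ⊓ fixedField G) :
    PosB ℂ (fixedField G) n (fun _ => 0) ∨ NegB ℂ (fixedField G) n (fun _ => 0) := by
  classical
  have hfin : FiniteDimensional (fixedField G) M := Pool.Agent.W619.PQ.fixed_finite G
  have hessK : Algebra.EssFiniteType ℂ (fixedField G) := Pool.Agent.TH466.QG.ess_below (K := M)
  have hmem : ∀ i, τ i ∈ C i ⊓ fixedField G := fun i => by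
    rw [← hτ i]
    exact IntermediateField.mem_adjoin_simple_self ℂ _
  -- the curves are algebraic over the rational function fields
  have htr' : ∀ i, Transcendental ℂ (τ i) := by
    intro i halg
    have h1 : ∀ z ∈ C i, IsAlgebraic ℂ z := by
      intro z hz
      have h2 := mem_span_semi hab (C i) (fun g hg => hst g hg i) hz
      clear hz
      induction h2 using Submodule.span_induction with
      | mem y hy =>
        by_cases hy0 : y = 0
        · rw [hy0]
          exact isAlgebraic_zero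
        have h3 : y ^ Nat.card G ∈ ℂ⟮τ i⟯ := by
          rw [hτ i]
          exact ⟨pow_mem hy.1 _, semi_pow hy0 hy.2⟩
        refine IsAlgebraic.of_pow (n := Nat.card G) Nat.card_pos (r := y) ?_
        have h4 : Algebra.IsAlgebraic ℂ ℂ⟮τ i⟯ :=
          IntermediateField.isAlgebraic_adjoin_simple halg.isIntegral
        exact (isAlgebraic_algebraMap_iff (algebraMap ℂ⟮τ i⟯ M).injective).2
          (h4.isAlgebraic ⟨_, h3⟩)
      | zero => exact isAlgebraic_zero
      | add a b _ _ ha hb => exact ha.add hb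
      | smul c a _ ha => rw [Algebra.smul_def]; exact (isAlgebraic_algebraMap c).mul ha
    obtain ⟨x, hx⟩ := IsFF.exists_transcendental (k := ℂ) (K := C i)
    apply hx
    exact (isAlgebraic_algebraMap_iff (algebraMap (C i) M).injective).1 (h1 _ x.2)
  have hbas : IsTranscendenceBasis ℂ τ :=
    Pool.Agent.W619.PQ.basis_of_iSup C hgen htr (fun i => ⟨τ i, (hmem i).1⟩) fun i h =>
      htr' i (h.algebraMap)
  let t : Fin n → fixedField G := fun i => ⟨τ i, (hmem i).2⟩
  have ht : AlgebraicIndependent ℂ t :=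
    hbas.1.of_comp (IsScalarTower.toAlgHom ℂ (fixedField G) M)
  have htrK : Algebra.trdeg ℂ (fixedField G) = (n : ℕ) :=
    Pool.Agent.Y184.NT.trdeg_below (K := M) htr
  obtain ⟨X, hXP, hX⟩ := exists_finite_gen (K := fixedField G)
    (P := Prods G C ∩ fixedField G) Set.inter_subset_right
    fun x hx => inv_gen hab C hst hgen hx
  have hfac : ∀ x : X, ∃ (T : Finset ℂ) (c : ℂ) (m : Fin n → ℂ → ℤ),
      (∀ i, ∀ a, a ∉ T → m i a = 0) ∧ ((x : fixedField G) : M) ^ Nat.card G =
        algebraMap ℂ M c * ∏ i, ∏ a ∈ T, (τ i - algebraMap ℂ M a) ^ m i a := fun x =>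
    prods_factor hτ htr' (hXP x x.2).1.1 fun h0 => (hXP x x.2).2 (Subtype.ext h0)
  choose T c m hm hf using hfac
  let S : Fin n → Finset ℂ := fun _ => insert 0 (Finset.univ.biUnion T)
  refine kummer_good hn htrK ht X hX S (fun i => ⟨0, Finset.mem_insert_self _ _⟩) fun x hx =>
    ⟨(hXP x hx).2, Nat.card G, Nat.card_pos, c ⟨x, hx⟩, fun p => m ⟨x, hx⟩ p.1 p.2, ?_⟩
  apply Subtype.ext
  have h1 : ((x ^ Nat.card G : fixedField G) : M) = (x : M) ^ Nat.card G := rfl
  rw [h1, hf ⟨x, hx⟩]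
  have h2 : ((algebraMap ℂ (fixedField G) (c ⟨x, hx⟩) * ∏ p : Σ i, S i,
      (t p.1 - algebraMap ℂ (fixedField G) p.2) ^ m ⟨x, hx⟩ p.1 p.2 : fixedField G) : M) =
      algebraMap ℂ M (c ⟨x, hx⟩) * ∏ p : Σ i, S i,
        (τ p.1 - algebraMap ℂ M p.2) ^ m ⟨x, hx⟩ p.1 p.2 := by
    have h3 := map_mul (algebraMap (fixedField G) M) (algebraMap ℂ (fixedField G) (c ⟨x, hx⟩))
      (∏ p : Σ i, S i, (t p.1 - algebraMap ℂ (fixedField G) p.2) ^ m ⟨x, hx⟩ p.1 p.2)
    rw [map_prod] at h3
    refine h3.trans ?_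
    congr 1
  rw [h2]
  congr 1
  rw [Fintype.prod_sigma]
  refine Finset.prod_congr rfl fun i _ => ?_
  rw [Finset.prod_subset (show T ⟨x, hx⟩ ⊆ S i from fun a ha => Finset.mem_insert_of_mem
    (Finset.mem_biUnion.2 ⟨⟨x, hx⟩, Finset.mem_univ _, ha⟩)) (fun a _ ha => by
      rw [hm ⟨x, hx⟩ i a ha, zpow_zero])]
  exact (Finset.prod_coe_sort (S i) fun a => (τ i - algebraMap ℂ M a) ^ m ⟨x, hx⟩ i a).symm

end

end Pool.Agent.K4H25.GQ
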