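import Pool.Agent.K4H25.GQ.Kum2

/-!
Finite abelian groups acting on products of curves: semi-invariants.
-/

set_option autoImplicit false
set_option linter.overlappingInstances false
set_option linter.unusedSectionVars false
set_option linter.unusedVariables false
set_option maxHeartbeats 4000000
set_option synthInstance.maxHeartbeats 400000

open FF IntermediateField Pool.Agent.R885 Pool.Agent.R885.N

namespace Pool.Agent.K4H25.GQ

section

variable {M : Type} [Field M] [Algebra ℂ M]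

/-- `z` is a semi-invariant -/
def Semi (G : Subgroup (M ≃ₐ[ℂ] M)) (z : M) : Prop :=
  ∀ g ∈ G, ∃ c : ℂ, g z = algebraMap ℂ M c * z

variable {G : Subgroup (M ≃ₐ[ℂ] M)}

theorem Semi.mul {z z' : M} (h : Semi G z) (h' : Semi G z') : Semi G (z * z') := by
  intro g hg
  obtain ⟨c, hc⟩ := h g hg
  obtain ⟨c', hc'⟩ := h' g hg
  refine ⟨c * c', ?_⟩
  rw [map_mul, map_mul, hc, hc']
  ring

theorem Semi.one : Semi G (1 : M) := fun g _ => ⟨1, by rw [map_one, map_one, mul_one]⟩

theorem Semi.prod {ι : Type} (s : Finset ι) (z : ι → M) (h : ∀ i ∈ s, Semi G (z i)) :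
    Semi G (∏ i ∈ s, z i) := by
  classical
  induction s using Finset.induction_on with
  | empty =>
    rw [Finset.prod_empty]
    exact Semi.one
  | insert a s ha ih =>
    rw [Finset.prod_insert ha]
    exact (h a (Finset.mem_insert_self _ _)).mul (ih fun i hi => h i (Finset.mem_insert_of_mem hi))

/-- every element is a sum of semi-invariants -/
theorem mem_span_semi [Finite G] (hab : ∀ g ∈ G, ∀ h ∈ G, g * h = h * g)
    (C : IntermediateField ℂ M) (hst : ∀ g ∈ G, ∀ z ∈ C, g z ∈ C) {z : M} (hz : z ∈ C) :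
    z ∈ Submodule.span ℂ {x : M | x ∈ C ∧ Semi G x} := by
  classical
  have := Fintype.ofFinite G
  let iG : CommGroup G :=
    { (inferInstance : Group G) with
      mul_comm := fun a b => Subtype.ext (hab a a.2 b b.2) }
  let zψ : AddChar (Additive G) ℂ → M := fun ψ =>
    ∑ g : G, algebraMap ℂ M (ψ (Additive.ofMul g⁻¹)) * (g : M ≃ₐ[ℂ] M) z
  have hC : ∀ ψ, zψ ψ ∈ C := by
    intro ψ
    refine sum_mem fun g _ => mul_mem (C.algebraMap_mem _) (hst g g.2 z hz)
  have hS : ∀ ψ, Semi G (zψ ψ) := by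
    intro ψ h hh
    refine ⟨ψ (Additive.ofMul (⟨h, hh⟩ : G)), ?_⟩
    change h (∑ g : G, algebraMap ℂ M (ψ (Additive.ofMul g⁻¹)) * (g : M ≃ₐ[ℂ] M) z) =
      algebraMap ℂ M (ψ (Additive.ofMul (⟨h, hh⟩ : G))) *
        ∑ g : G, algebraMap ℂ M (ψ (Additive.ofMul g⁻¹)) * (g : M ≃ₐ[ℂ] M) z
    rw [map_sum, Finset.mul_sum, ← Equiv.sum_comp (Equiv.mulLeft (⟨h, hh⟩ : G)) (fun g : G =>
      algebraMap ℂ M (ψ (Additive.ofMul (⟨h, hh⟩ : G))) *
        (algebraMap ℂ M (ψ (Additive.ofMul g⁻¹)) * (g : M ≃ₐ[ℂ] M) z))]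
    refine Finset.sum_congr rfl fun g _ => ?_
    rw [map_mul, AlgEquiv.commutes]
    have h1 : (((Equiv.mulLeft (⟨h, hh⟩ : G)) g : G) : M ≃ₐ[ℂ] M) z =
        h ((g : M ≃ₐ[ℂ] M) z) := rfl
    rw [h1, ← mul_assoc, ← map_mul, ← AddChar.map_add_eq_mul]
    congr 3
    rw [← ofMul_mul]
    congr 1
    change g⁻¹ = ⟨h, hh⟩ * ((⟨h, hh⟩ : G) * g)⁻¹
    rw [mul_inv_rev, mul_comm g⁻¹, ← mul_assoc, mul_inv_cancel, one_mul]
  have hsum : ∑ ψ : AddChar (Additive G) ℂ, zψ ψ = algebraMap ℂ M (Fintype.card G) * z := by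
    change ∑ ψ : AddChar (Additive G) ℂ,
      ∑ g : G, algebraMap ℂ M (ψ (Additive.ofMul g⁻¹)) * (g : M ≃ₐ[ℂ] M) z = _
    rw [Finset.sum_comm]
    have h1 : ∀ g : G, ∑ ψ : AddChar (Additive G) ℂ,
        algebraMap ℂ M (ψ (Additive.ofMul g⁻¹)) * (g : M ≃ₐ[ℂ] M) z =
        if g = 1 then algebraMap ℂ M (Fintype.card G) * z else 0 := by
      intro g
      rw [← Finset.sum_mul, ← map_sum, AddChar.sum_apply_eq_ite]
      by_cases hg : g = 1
      · subst hg
        rw [if_pos rfl, if_pos (by rw [inv_one]; rfl)]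
        have hc1 : Fintype.card (Additive G) = Fintype.card G := Fintype.card_congr Additive.toMul
        rw [hc1]
        rfl
      · rw [if_neg hg, if_neg, map_zero, zero_mul]
        intro h0
        apply hg
        have h2 : g⁻¹ = 1 := h0
        rw [← inv_inv g, h2, inv_one]
    rw [Finset.sum_congr rfl fun g _ => h1 g, Finset.sum_ite_eq', if_pos (Finset.mem_univ _)]
  have hcard : ((Fintype.card G : ℕ) : ℂ) ≠ 0 := by
    exact_mod_cast Fintype.card_ne_zero
  have hz' : z = ((Fintype.card G : ℂ)⁻¹) • ∑ ψ : AddChar (Additive G) ℂ, zψ ψ := by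
    rw [hsum, Algebra.smul_def, ← mul_assoc, ← map_mul, inv_mul_cancel₀ hcard, map_one, one_mul]
  rw [hz']
  exact Submodule.smul_mem _ _ (Submodule.sum_mem _ fun ψ _ =>
    Submodule.subset_span ⟨hC ψ, hS ψ⟩)

variable {n : ℕ}

/-- products of semi-invariants of the curves -/
def Prods (G : Subgroup (M ≃ₐ[ℂ] M)) (C : Fin n → IntermediateField ℂ M) : Set M :=
  {x | ∃ z : Fin n → M, (∀ i, z i ∈ C i ∧ Semi G (z i)) ∧ x = ∏ i, z i}

theorem prods_mul {C : Fin n → IntermediateField ℂ M} {x y : M} (hx : x ∈ Prods G C)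
    (hy : y ∈ Prods G C) : x * y ∈ Prods G C := by
  obtain ⟨z, hz, rfl⟩ := hx
  obtain ⟨z', hz', rfl⟩ := hy
  exact ⟨fun i => z i * z' i, fun i => ⟨mul_mem (hz i).1 (hz' i).1, (hz i).2.mul (hz' i).2⟩,
    by rw [Finset.prod_mul_distrib]⟩

theorem prods_semi {C : Fin n → IntermediateField ℂ M} {x : M} (hx : x ∈ Prods G C) :
    Semi G x := by
  obtain ⟨z, hz, rfl⟩ := hx
  exact Semi.prod _ _ fun i _ => (hz i).2

/-- the span of the products contains the algebra generated by the curves -/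
theorem adjoin_le_span [Finite G] (hab : ∀ g ∈ G, ∀ h ∈ G, g * h = h * g)
    (C : Fin n → IntermediateField ℂ M) (hst : ∀ g ∈ G, ∀ i, ∀ z ∈ C i, g z ∈ C i) {x : M}
    (hx : x ∈ Algebra.adjoin ℂ (⋃ i, (C i : Set M))) : x ∈ Submodule.span ℂ (Prods G C) := by
  classical
  have hone : (1 : M) ∈ Prods G C :=
    ⟨fun _ => 1, fun i => ⟨one_mem _, Semi.one⟩, by rw [Finset.prod_const_one]⟩
  have hmul : ∀ a b, a ∈ Submodule.span ℂ (Prods G C) → b ∈ Submodule.span ℂ (Prods G C) →
      a * b ∈ Submodule.span ℂ (Prods G C) := by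
    intro a b ha hb
    have h1 := Submodule.mul_mem_mul ha hb
    rw [Submodule.span_mul_span] at h1
    refine Submodule.span_mono ?_ h1
    rintro _ ⟨y, hy, z, hz, rfl⟩
    exact prods_mul hy hz
  induction hx using Algebra.adjoin_induction with
  | mem x hx =>
    obtain ⟨i, hi⟩ := Set.mem_iUnion.1 hx
    have h1 := mem_span_semi hab (C i) (fun g hg => hst g hg i) (z := x) hi
    refine Submodule.span_mono ?_ h1
    rintro y ⟨hy1, hy2⟩
    refine ⟨fun j => if j = i then y else 1, fun j => ?_, ?_⟩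
    · by_cases h : j = i
      · subst h
        beta_reduce
        rw [if_pos rfl]
        exact ⟨hy1, hy2⟩
      · beta_reduce
        rw [if_neg h]
        exact ⟨one_mem _, Semi.one⟩
    · rw [Finset.prod_ite_eq' Finset.univ i, if_pos (Finset.mem_univ _)]
  | algebraMap c =>
    rw [Algebra.algebraMap_eq_smul_one]
    exact Submodule.smul_mem _ _ (Submodule.subset_span hone)
  | add x y _ _ hx hy => exact Submodule.add_mem _ hx hy
  | mul x y _ _ hx hy => exact hmul x y hx hy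

/-- the average -/
noncomputable def avg (G : Subgroup (M ≃ₐ[ℂ] M)) [Fintype G] (z : M) : M :=
  algebraMap ℂ M ((Fintype.card G : ℂ)⁻¹) * ∑ g : G, (g : M ≃ₐ[ℂ] M) z

theorem avg_fixed [Fintype G] {z : M} (hz : z ∈ fixedField G) : avg G z = z := by
  unfold avg
  have h1 : ∀ g : G, (g : M ≃ₐ[ℂ] M) z = z := fun g => hz g
  rw [Finset.sum_congr rfl fun g _ => h1 g, Finset.sum_const, Finset.card_univ, nsmul_eq_mul,
    ← mul_assoc]
  have h2 : algebraMap ℂ M ((Fintype.card G : ℂ)⁻¹) * ((Fintype.card G : ℕ) : M) = 1 := by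
    rw [← map_natCast (algebraMap ℂ M), ← map_mul, inv_mul_cancel₀, map_one]
    exact_mod_cast Fintype.card_ne_zero
  rw [h2, one_mul]

theorem avg_mem [Fintype G] (z : M) : avg G z ∈ fixedField G := by
  intro h
  change (h : M ≃ₐ[ℂ] M) (avg G z) = avg G z
  unfold avg
  rw [map_mul, AlgEquiv.commutes, map_sum]
  congr 1
  exact Equiv.sum_comp (Equiv.mulLeft h) (fun g : G => (g : M ≃ₐ[ℂ] M) z)

theorem avg_add [Fintype G] (a b : M) : avg G (a + b) = avg G a + avg G b := by
  unfold avg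
  rw [← mul_add, ← Finset.sum_add_distrib]
  congr 1
  exact Finset.sum_congr rfl fun g _ => map_add _ _ _

theorem avg_smul [Fintype G] (c : ℂ) (a : M) : avg G (c • a) = c • avg G a := by
  unfold avg
  have h1 : ∀ g : G, (g : M ≃ₐ[ℂ] M) (c • a) = algebraMap ℂ M c * (g : M ≃ₐ[ℂ] M) a := fun g => by
    rw [Algebra.smul_def, map_mul, AlgEquiv.commutes]
  rw [Finset.sum_congr rfl fun g _ => h1 g, ← Finset.mul_sum, Algebra.smul_def]
  ring

theorem avg_zero [Fintype G] : avg G (0 : M) = 0 := by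
  unfold avg
  rw [Finset.sum_eq_zero fun g _ => map_zero _, mul_zero]

theorem avg_semi [Fintype G] {z : M} (hz : Semi G z) : ∃ c : ℂ, avg G z = c • z ∧
    (c = 0 ∨ z ∈ fixedField G) := by
  choose c hc using fun g : G => hz g g.2
  have h1 : avg G z = ((Fintype.card G : ℂ)⁻¹ * ∑ g : G, c g) • z := by
    unfold avg
    rw [Finset.sum_congr rfl fun g _ => hc g, ← Finset.sum_mul, ← mul_assoc, Algebra.smul_def,
      map_mul, map_sum]
  refine ⟨_, h1, ?_⟩
  by_cases h0 : ((Fintype.card G : ℂ)⁻¹ * ∑ g : G, c g) = 0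
  · exact Or.inl h0
  · right
    have h2 : z = ((Fintype.card G : ℂ)⁻¹ * ∑ g : G, c g)⁻¹ • avg G z := by
      rw [h1, smul_smul, inv_mul_cancel₀ h0, one_smul]
    rw [h2, Algebra.smul_def]
    exact mul_mem ((fixedField G).algebraMap_mem _) (avg_mem z)

/-- invariants of the algebra are sums of invariant products -/
theorem mem_span_inv [Finite G] {C : Fin n → IntermediateField ℂ M} {x : M}
    (hx : x ∈ Submodule.span ℂ (Prods G C)) (hxK : x ∈ fixedField G) :
    x ∈ Submodule.span ℂ (Prods G C ∩ fixedField G) := by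
  have := Fintype.ofFinite G
  have h : ∀ y ∈ Submodule.span ℂ (Prods G C),
      avg G y ∈ Submodule.span ℂ (Prods G C ∩ fixedField G) := by
    intro y hy
    induction hy using Submodule.span_induction with
    | mem y hy =>
      obtain ⟨c, hc, h0⟩ := avg_semi (prods_semi hy)
      rw [hc]
      rcases h0 with h0 | h0
      · rw [h0, zero_smul]
        exact Submodule.zero_mem _
      · exact Submodule.smul_mem _ _ (Submodule.subset_span ⟨hy, h0⟩)
    | zero => rw [avg_zero]; exact Submodule.zero_mem _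
    | add a b _ _ ha hb => rw [avg_add]; exact Submodule.add_mem _ ha hb
    | smul c a _ ha => rw [avg_smul]; exact Submodule.smul_mem _ _ ha
  have h1 := h x hx
  rwa [avg_fixed hxK] at h1

/-- the invariant products generate the fixed field -/
theorem inv_gen [Finite G] (hab : ∀ g ∈ G, ∀ h ∈ G, g * h = h * g)
    (C : Fin n → IntermediateField ℂ M) (hst : ∀ g ∈ G, ∀ i, ∀ z ∈ C i, g z ∈ C i)
    (hgen : ⨆ i, C i = ⊤) {x : M} (hx : x ∈ fixedField G) :
    x ∈ IntermediateField.adjoin ℂ (Prods G C ∩ fixedField G) := by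
  classical
  have := Fintype.ofFinite G
  have htop : IntermediateField.adjoin ℂ (⋃ i, (C i : Set M)) = ⊤ := by
    rw [eq_top_iff, ← hgen]
    exact iSup_le fun i z hz => IntermediateField.subset_adjoin _ _ (Set.mem_iUnion.2 ⟨i, hz⟩)
  have hx' : x ∈ IntermediateField.adjoin ℂ (⋃ i, (C i : Set M)) := by
    rw [htop]
    trivial
  obtain ⟨a, ha, b, hb, hab'⟩ := IntermediateField.mem_adjoin_iff_div.1 hx'
  by_cases hb0 : b = 0
  · rw [hb0, div_zero] at hab'
    rw [hab']
    exact zero_mem _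
  have hst' : ∀ g ∈ G, ∀ z ∈ Algebra.adjoin ℂ (⋃ i, (C i : Set M)),
      g z ∈ Algebra.adjoin ℂ (⋃ i, (C i : Set M)) := by
    intro g hg z hz
    induction hz using Algebra.adjoin_induction with
    | mem z hz =>
      obtain ⟨i, hi⟩ := Set.mem_iUnion.1 hz
      exact Algebra.subset_adjoin (Set.mem_iUnion.2 ⟨i, hst g hg i z hi⟩)
    | algebraMap c => rw [AlgEquiv.commutes]; exact Subalgebra.algebraMap_mem _ _
    | add u v _ _ hu hv => rw [map_add]; exact add_mem hu hv
    | mul u v _ _ hu hv => rw [map_mul]; exact mul_mem hu hv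
  -- the norm
  let N : M := ∏ g : G, (g : M ≃ₐ[ℂ] M) b
  have hN0 : N ≠ 0 := Finset.prod_ne_zero_iff.2 fun g _ => (map_ne_zero _).2 hb0
  have hNA : N ∈ Algebra.adjoin ℂ (⋃ i, (C i : Set M)) := prod_mem fun g _ => hst' g g.2 b hb
  have hNK : N ∈ fixedField G := by
    intro h
    change (h : M ≃ₐ[ℂ] M) (∏ g : G, (g : M ≃ₐ[ℂ] M) b) = _
    rw [map_prod]
    exact Equiv.prod_comp (Equiv.mulLeft h) (fun g : G => (g : M ≃ₐ[ℂ] M) b)
  have hxN : x * N ∈ Algebra.adjoin ℂ (⋃ i, (C i : Set M)) := by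
    have h1 : x * N = a * ∏ g ∈ Finset.univ.erase (1 : G), (g : M ≃ₐ[ℂ] M) b := by
      change x * (∏ g : G, (g : M ≃ₐ[ℂ] M) b) = _
      rw [← Finset.mul_prod_erase Finset.univ _ (Finset.mem_univ (1 : G)), hab']
      change a / b * (b * _) = _
      rw [← mul_assoc, div_mul_cancel₀ _ hb0]
    rw [h1]
    exact mul_mem ha (prod_mem fun g _ => hst' g g.2 b hb)
  have hsub : ∀ y, y ∈ Submodule.span ℂ (Prods G C ∩ fixedField G) →
      y ∈ IntermediateField.adjoin ℂ (Prods G C ∩ fixedField G) := by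
    intro y hy
    induction hy using Submodule.span_induction with
    | mem y hy => exact IntermediateField.subset_adjoin _ _ hy
    | zero => exact zero_mem _
    | add a b _ _ ha hb => exact add_mem ha hb
    | smul c a _ ha =>
      rw [Algebra.smul_def]
      exact mul_mem (IntermediateField.algebraMap_mem _ _) ha
  have h1 := hsub _ (mem_span_inv (adjoin_le_span hab C hst hxN) (mul_mem hx hNK))
  have h2 := hsub _ (mem_span_inv (adjoin_le_span hab C hst hNA) hNK)
  have h3 := div_mem h1 h2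
  rwa [mul_div_cancel_right₀ _ hN0] at h3

/-- powers of semi-invariants are invariant -/
theorem semi_pow [Finite G] {z : M} (hz0 : z ≠ 0) (hz : Semi G z) :
    z ^ Nat.card G ∈ fixedField G := by
  intro g
  change (g : M ≃ₐ[ℂ] M) (z ^ Nat.card G) = z ^ Nat.card G
  obtain ⟨c, hc⟩ := hz g g.2
  have h1 : ∀ m : ℕ, (((g ^ m : G) : M ≃ₐ[ℂ] M)) z = algebraMap ℂ M (c ^ m) * z := by
    intro m
    induction m with
    | zero => simp
    | succ m ih =>
      rw [pow_succ', pow_succ']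
      change (g : M ≃ₐ[ℂ] M) (((g ^ m : G) : M ≃ₐ[ℂ] M) z) = _
      rw [ih, map_mul, AlgEquiv.commutes, hc, map_mul]
      ring
  have h2 := h1 (Nat.card G)
  rw [pow_card_eq_one'] at h2
  have h3 : algebraMap ℂ M (c ^ Nat.card G) = 1 := by
    have h4 : z = algebraMap ℂ M (c ^ Nat.card G) * z := h2
    have h5 : algebraMap ℂ M (c ^ Nat.card G) * z = 1 * z := by rw [one_mul]; exact h4.symm
    exact mul_right_cancel₀ hz0 h5
  rw [map_pow, hc, mul_pow, ← map_pow, h3, one_mul]

end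

end Pool.Agent.K4H25.GQ
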