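import Pool.Agent.K4H25.GQ.Mul

/-!
Kummer extensions of a rational function field which are branched along fibres of the coordinates:
the coordinates in a torus.
-/

set_option autoImplicit false
set_option linter.overlappingInstances false
set_option linter.unusedSectionVars false
set_option linter.unusedVariables false
set_option maxHeartbeats 4000000
set_option synthInstance.maxHeartbeats 400000

open FF IntermediateField Pool.Agent.R885 Pool.Agent.R885.N

namespace Pool.Agent.K4H25.GQ

section

variable {k K : Type} [Field k] [CharZero k] [IsAlgClosed k] [Field K] [Algebra k K] {n : ℕ}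

theorem cast_indep {P : Type} [Fintype P] [DecidableEq P] {r : ℕ} (e : P ≃ Fin r)
    (A : P → Fin r → ℤ) (hA : LinearIndependent ℤ A) :
    LinearIndependent k fun p i => ((A p i : ℤ) : k) := by
  classical
  let M : Matrix (Fin r) (Fin r) ℤ := Matrix.of fun i j => A (e.symm i) j
  have hM : M.det ≠ 0 := by
    intro h0
    obtain ⟨v, hv, hv0⟩ := Matrix.exists_vecMul_eq_zero_iff.2 h0
    apply hv
    have h1 : LinearIndependent ℤ (fun i => A (e.symm i)) := hA.comp _ e.symm.injective
    rw [Fintype.linearIndependent_iff] at h1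
    funext i
    refine h1 v ?_ i
    rw [← hv0]
    funext j
    rw [Finset.sum_apply]
    rfl
  have hM' : (M.map (Int.castRingHom k)).det ≠ 0 := by
    rw [← RingHom.mapMatrix_apply, ← RingHom.map_det]
    intro h
    apply hM
    have h2 : ((M.det : ℤ) : k) = 0 := h
    exact_mod_cast h2
  have h2 := Matrix.linearIndependent_rows_of_det_ne_zero hM'
  have h3 := h2.comp e e.injective
  have e3 : (fun p i => ((A p i : ℤ) : k)) = (M.map (Int.castRingHom k)).row ∘ e := by
    funext p i
    change ((A p i : ℤ) : k) = ((A (e.symm (e p)) i : ℤ) : k)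
    rw [e.symm_apply_apply]
  rw [e3]
  exact h3

/-- **Coordinates in a torus.** -/
theorem exists_torus {t : Fin n → K} (ht : AlgebraicIndependent k t) (X : Finset K)
    (hX : IntermediateField.adjoin k (X : Set K) = ⊤) (S : Fin n → Finset k)
    (hXS : ∀ x ∈ X, x ≠ 0 ∧ ∃ e : ℕ, 0 < e ∧ ∃ (c : k) (m : (Σ i, S i) → ℤ),
      x ^ e = algebraMap k K c * ∏ p : Σ i, S i, (t p.1 - algebraMap k K p.2) ^ m p)
    {r : ℕ} (hr : Fintype.card (Σ i, S i) = r) :
    ∃ (y : Fin r → K) (A : (Σ i, S i) → Fin r → ℤ) (b : (Σ i, S i) → k), (∀ j, y j ≠ 0) ∧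
      IntermediateField.adjoin k (Set.range y) = ⊤ ∧ (∀ p, b p ≠ 0) ∧
      LinearIndependent k (fun p i => ((A p i : ℤ) : k)) ∧
      ∀ p : Σ i, S i, algebraMap k K (b p) * mono y (A p) = t p.1 - algebraMap k K p.2 := by
  classical
  have := fmod_torsion (k := k) (K := K)
  -- the elements as units
  let u : (Σ i, S i) → Kˣ := fun p => Units.mk0 _ (sub_const_ne ht p.1 (p.2 : k))
  have hu : ∀ p, ((u p : Kˣ) : K) = t p.1 - algebraMap k K p.2 := fun p => rfl
  let xu : X → Kˣ := fun x => Units.mk0 x.1 (hXS x.1 x.2).1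
  let Γ : Set (FMod k K) := Set.range (fun p => cl k (u p)) ∪ Set.range (fun x => cl k (xu x))
  have hΓ : Γ.Finite := (Set.finite_range _).union (Set.finite_range _)
  let L : Submodule ℤ (FMod k K) := Submodule.span ℤ Γ
  have hLfin : Module.Finite ℤ L := Module.Finite.span_of_finite ℤ hΓ
  have hLtf : Module.IsTorsionFree ℤ L := inferInstance
  have hLfree : Module.Free ℤ L := Module.free_of_finite_type_torsion_free'
  have huL : ∀ p, cl k (u p) ∈ L := fun p => Submodule.subset_span (Or.inl ⟨p, rfl⟩)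
  have hxL : ∀ x, cl k (xu x) ∈ L := fun x => Submodule.subset_span (Or.inr ⟨x, rfl⟩)
  -- the map from the free module
  let φ : ((Σ i, S i) → ℤ) →ₗ[ℤ] L :=
    Fintype.linearCombination ℤ (fun p => (⟨cl k (u p), huL p⟩ : L))
  have hφ : ∀ m, (φ m : FMod k K) = cl k (∏ p, u p ^ m p) := by
    intro m
    rw [cl_prod]
    change (((∑ p, m p • (⟨cl k (u p), huL p⟩ : L)) : L) : FMod k K) = _
    rw [Submodule.coe_sum]
    refine Finset.sum_congr rfl fun p _ => ?_
    rw [cl_zpow]
    rfl
  have hφi : Function.Injective φ := by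
    rw [← LinearMap.ker_eq_bot, LinearMap.ker_eq_bot']
    intro m hm
    have h1 : cl k (∏ p, u p ^ m p) = 0 := by
      rw [← hφ, hm]
      rfl
    obtain ⟨c, hc, h2⟩ := cl_eq_zero.1 h1
    refine mult_indep ht S m c ?_
    rw [← h2, Units.coe_prod]
    refine Finset.prod_congr rfl fun p _ => ?_
    rw [Units.val_zpow_eq_zpow_val, hu]
  -- a multiple of the lattice
  choose! E hE0 cc mm hE using fun x (hx : x ∈ X) => (hXS x hx).2
  have hE' : ∀ x : X, (∏ z ∈ X, E z : ℕ) • (⟨cl k (xu x), hxL x⟩ : L) ∈ LinearMap.range φ := by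
    intro x
    have h1 : E x.1 • (⟨cl k (xu x), hxL x⟩ : L) = φ (mm x.1) := by
      apply Subtype.ext
      rw [hφ]
      change E x.1 • cl k (xu x) = _
      have h2 : E x.1 • cl k (xu x) = cl k (xu x ^ (E x.1 : ℤ)) := by
        rw [cl_zpow, natCast_zsmul]
      rw [h2, cl_eq]
      have h3 := hE x.1 x.2
      have hc0 : cc x.1 ≠ 0 := by
        intro h0
        rw [h0, map_zero, zero_mul] at h3
        exact pow_ne_zero _ (hXS x.1 x.2).1 h3
      refine ⟨cc x.1, hc0, ?_⟩
      rw [Units.val_zpow_eq_zpow_val, zpow_natCast, Units.coe_prod]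
      change (x.1 : K) ^ E x.1 = _
      rw [h3]
      congr 1
      refine Finset.prod_congr rfl fun p _ => ?_
      rw [Units.val_zpow_eq_zpow_val, hu]
    rw [← Finset.prod_erase_mul X E x.2, mul_smul, h1]
    exact Submodule.smul_of_tower_mem _ _ ⟨_, rfl⟩
  have hEu : ∀ p, (∏ z ∈ X, E z : ℕ) • (⟨cl k (u p), huL p⟩ : L) ∈ LinearMap.range φ := by
    intro p
    refine Submodule.smul_of_tower_mem _ _ ⟨Pi.single p 1, ?_⟩
    change Fintype.linearCombination ℤ (fun p => (⟨cl k (u p), huL p⟩ : L)) (Pi.single p 1) = _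
    rw [Fintype.linearCombination_apply_single, one_smul]
  have hE0' : (∏ z ∈ X, E z : ℕ) ≠ 0 := Finset.prod_ne_zero_iff.2 fun z hz => (hE0 z hz).ne'
  have hall : ∀ z : L, (∏ z ∈ X, E z : ℕ) • z ∈ LinearMap.range φ := by
    rintro ⟨z, hz⟩
    induction hz using Submodule.span_induction with
    | mem z hz =>
      rcases hz with ⟨p, rfl⟩ | ⟨x, rfl⟩
      · exact hEu p
      · exact hE' x
    | zero =>
      have : (⟨0, Submodule.zero_mem _⟩ : L) = 0 := rfl
      rw [this, smul_zero]
      exact Submodule.zero_mem _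
    | add a b ha hb h1 h2 =>
      have h3 : (⟨a + b, Submodule.add_mem _ ha hb⟩ : L) = ⟨a, ha⟩ + ⟨b, hb⟩ := rfl
      rw [h3, smul_add]
      exact Submodule.add_mem _ h1 h2
    | smul a b hb h1 =>
      have h3 : (⟨a • b, Submodule.smul_mem _ a hb⟩ : L) = a • ⟨b, hb⟩ := rfl
      rw [h3, smul_comm]
      exact Submodule.smul_mem _ _ h1
  -- the rank
  have hrank : Module.finrank ℤ L = r := by
    apply le_antisymm
    · let ψ : L →ₗ[ℤ] LinearMap.range φ :=
        { toFun := fun z => ⟨(∏ z ∈ X, E z : ℕ) • z, hall z⟩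
          map_add' := fun a b => by apply Subtype.ext; exact smul_add _ _ _
          map_smul' := fun c a => by apply Subtype.ext; exact smul_comm _ _ _ }
      have hψ : Function.Injective ψ := by
        rw [← LinearMap.ker_eq_bot, LinearMap.ker_eq_bot']
        intro z hz
        have h1 : (∏ z ∈ X, E z : ℕ) • z = 0 := congrArg Subtype.val hz
        have h2 : ((∏ z ∈ X, E z : ℕ) : ℤ) • z = 0 := by rw [natCast_zsmul]; exact h1
        rcases smul_eq_zero.1 h2 with h | h
        · exact absurd (by exact_mod_cast h) hE0'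
        · exact h
      have h1 := LinearMap.finrank_le_finrank_of_injective hψ
      have h2 : Module.finrank ℤ (LinearMap.range φ) = r := by
        rw [LinearMap.finrank_range_of_inj hφi, Module.finrank_fintype_fun_eq_card, hr]
      rwa [h2] at h1
    · have h1 := LinearMap.finrank_le_finrank_of_injective hφi
      rwa [Module.finrank_fintype_fun_eq_card, hr] at h1
  let B := Module.finBasisOfFinrankEq ℤ L hrank
  choose y hy using fun j => cl_surj k ((B j : L) : FMod k K)
  have hrep : ∀ (z : Kˣ) (hz : cl k z ∈ L), ∃ c : k, c ≠ 0 ∧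
      (z : K) = algebraMap k K c * mono (fun j => (y j : K)) (fun j => B.repr ⟨cl k z, hz⟩ j) := by
    intro z hz
    have h1 : cl k z = cl k (∏ j, y j ^ (B.repr ⟨cl k z, hz⟩ j)) := by
      rw [cl_prod]
      have h2 := congrArg Subtype.val (B.sum_repr ⟨cl k z, hz⟩)
      rw [Submodule.coe_sum] at h2
      refine h2.symm.trans (Finset.sum_congr rfl fun j _ => ?_)
      rw [cl_zpow, hy]
      rfl
    obtain ⟨c, hc, h2⟩ := cl_eq.1 h1
    refine ⟨c, hc, ?_⟩
    rw [h2, Units.coe_prod]
    congr 1
    unfold mono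
    refine Finset.prod_congr rfl fun j _ => ?_
    rw [Units.val_zpow_eq_zpow_val]
  choose b hb0 hb using fun p => hrep (u p) (huL p)
  refine ⟨fun j => (y j : K), fun p j => B.repr ⟨cl k (u p), huL p⟩ j, b, fun j => (y j).ne_zero,
    ?_, hb0, ?_, fun p => (hb p).symm⟩
  · rw [eq_top_iff, ← hX, IntermediateField.adjoin_le_iff]
    intro x hx
    obtain ⟨c, hc, h1⟩ := hrep (xu ⟨x, hx⟩) (hxL ⟨x, hx⟩)
    have h2 : x = algebraMap k K c * mono (fun j => (y j : K))
      (fun j => B.repr ⟨cl k (xu ⟨x, hx⟩), hxL ⟨x, hx⟩⟩ j) := h1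
    rw [h2]
    refine mul_mem (IntermediateField.algebraMap_mem _ _) ?_
    unfold mono
    refine prod_mem fun j _ => ?_
    exact zpow_mem (IntermediateField.subset_adjoin k _ (Set.mem_range_self j)) _
  · refine cast_indep (Fintype.equivFinOfCardEq hr) _ ?_
    rw [Fintype.linearIndependent_iff]
    intro g hg p
    have h1 : φ g = 0 := by
      apply B.repr.injective
      rw [map_zero]
      ext j
      have h2 := congrFun hg j
      rw [Finset.sum_apply] at h2
      have h3 : B.repr (φ g) j = ∑ p, g p * B.repr ⟨cl k (u p), huL p⟩ j := by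
        change B.repr (∑ p, g p • (⟨cl k (u p), huL p⟩ : L)) j = _
        rw [map_sum, Finsupp.finsetSum_apply]
        refine Finset.sum_congr rfl fun p _ => ?_
        rw [map_smul, Finsupp.smul_apply, smul_eq_mul]
      rw [h3, Finsupp.zero_apply, ← show _ = (0 : ℤ) from h2]
      refine Finset.sum_congr rfl fun p _ => ?_
      rw [Pi.smul_apply, smul_eq_mul]
    have h2 := hφi (h1.trans (map_zero φ).symm)
    exact congrFun h2 p

end

end Pool.Agent.K4H25.GQ
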