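import Pool.Agent.K4H25.GQ.Kum

/-!
Kummer extensions of a rational function field which are branched along fibres of the coordinates:
abundance.
-/

set_option autoImplicit false
set_option linter.overlappingInstances false
set_option linter.unusedSectionVars false
set_option linter.unusedVariables false
set_option maxHeartbeats 4000000
set_option synthInstance.maxHeartbeats 400000

open FF IntermediateField Pool.Agent.R885 Pool.Agent.R885.N

namespace Pool.Agent.K4H25.GQ

section

variable {k K : Type} [Field k] [CharZero k] [IsAlgClosed k] [Field K] [Algebra k K] {n : ℕ}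

theorem bdry_triv {r : ℕ} (x : Fin r → K) (h : Fin 0 → (Fin r → ℤ) →₀ k) (P : Place k K) :
    bdry (fun _ => 1) (fun j : Fin 0 => j.elim0) x h P = 0 := by
  unfold bdry
  split_ifs with h1 h2
  · norm_num
  · obtain ⟨j, -⟩ := h2
    exact j.elim0
  · rfl

/-- **Abundance for Kummer extensions which are branched along fibres of the coordinates.** -/
theorem kummer_good (hn : 1 ≤ n) (htr : Algebra.trdeg k K = (n : ℕ)) {t : Fin n → K}
    (ht : AlgebraicIndependent k t) (X : Finset K)
    (hX : IntermediateField.adjoin k (X : Set K) = ⊤) (S : Fin n → Finset k)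
    (hS : ∀ i, (S i).Nonempty)
    (hXS : ∀ x ∈ X, x ≠ 0 ∧ ∃ e : ℕ, 0 < e ∧ ∃ (c : k) (m : (Σ i, S i) → ℤ),
      x ^ e = algebraMap k K c * ∏ p : Σ i, S i, (t p.1 - algebraMap k K p.2) ^ m p) :
    PosB k K n (fun _ => 0) ∨ NegB k K n (fun _ => 0) := by
  classical
  choose a ha using hS
  let a0 : ∀ i, S i := fun i => ⟨a i, ha i⟩
  obtain ⟨q, hq⟩ : ∃ q, q = Fintype.card {p : Σ i, S i // p.2 ≠ a0 p.1} := ⟨_, rfl⟩
  have hr : Fintype.card (Σ i, S i) = n + q := by
    have h1 := Fintype.card_congr (Equiv.sumCompl (fun p : Σ i, S i => p.2 = a0 p.1))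
    rw [Fintype.card_sum] at h1
    have h2 : Fintype.card {p : Σ i, S i // p.2 = a0 p.1} = n := by
      refine (Fintype.card_congr (β := Fin n)
        ⟨fun p => p.1.1, fun i => ⟨⟨i, a0 i⟩, rfl⟩, ?_, fun i => rfl⟩).trans (Fintype.card_fin n)
      rintro ⟨⟨i, b⟩, hb⟩
      change b = a0 i at hb
      subst hb
      rfl
    rw [← h1, h2, hq]
  obtain ⟨y, A, b, hy0, hgen, hb, hli, hA⟩ := exists_torus ht X hX S hXS hr
  have e : Fin q ≃ {p : Σ i, S i // p.2 ≠ a0 p.1} := (Fintype.equivFinOfCardEq hq.symm).symm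
  let h : Fin 0 → (Fin (n + q) → ℤ) →₀ k := fun j => j.elim0
  have hnd := nondeg hb hli hA a0 e h
  have hw : N.IsWeight (fun _ : Fin (n + q) → ℤ => (1 : ℚ)) :=
    { nonneg := fun _ _ => zero_le_one
      le_one := fun _ => le_rfl
      denom := ⟨1, le_rfl, fun _ => ⟨1, by norm_num⟩⟩
      add := fun _ _ _ _ _ => by norm_num
      smul := fun g _ hg _ => by
        rw [mul_one]
        exact_mod_cast hg }
  have main := pair_weightV hn htr hy0 hgen (f := fun l => eqn A b (e l).1 (bas a0 (e l).1))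
    (fun l => ev_eqn hA _ _ rfl) (h := h) (fun j => j.elim0) hnd hw
    (c := fun j : Fin 0 => j.elim0) (fun j => j.elim0)
  have hβ : (fun P : Place k K => ((bdry (fun _ => 1) (fun j : Fin 0 => j.elim0) y h P : ℚ) : ℝ)) =
      fun _ => 0 := by
    funext P
    rw [bdry_triv]
    norm_num
  rw [hβ] at main
  exact main

end

end Pool.Agent.K4H25.GQ
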