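import Pool.Agent.R885.V14

/-!
Products of lines in a torus, pulled back under an isogeny: nondegeneracy.
-/

set_option autoImplicit false
set_option linter.overlappingInstances false
set_option linter.unusedSectionVars false
set_option linter.unusedVariables false
set_option maxHeartbeats 4000000
set_option synthInstance.maxHeartbeats 400000

open FF IntermediateField Pool.Agent.W603.LV Pool.Agent.W619.PQ Pool.Agent.R885

namespace Pool.Agent.K4H25.GQ

section

variable {ι κ : Type} [Fintype ι] [Fintype κ] {k K : Type} [Field k] [Field K] [Algebra k K]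

/-- the Laurent polynomial with the exponents `m j` and the coefficients `a j` -/
noncomputable def lp (m : κ → ι → ℤ) (a : κ → k) : (ι → ℤ) →₀ k :=
  ∑ j, Finsupp.single (m j) (a j)

theorem ev_single (x : ι → K) (m : ι → ℤ) (a : k) :
    ev x (Finsupp.single m a) = algebraMap k K a * mono x m := by
  unfold ev
  rw [Finsupp.sum_single_index]
  rw [map_zero, zero_mul]

theorem ev_zero (x : ι → K) : ev x (0 : (ι → ℤ) →₀ k) = 0 := Finsupp.sum_zero_index

theorem ev_add (x : ι → K) (f g : (ι → ℤ) →₀ k) : ev x (f + g) = ev x f + ev x g := by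
  classical
  unfold ev
  rw [Finsupp.sum_add_index']
  · intro m; rw [map_zero, zero_mul]
  · intro m a b; rw [map_add, add_mul]

theorem ev_sum {α : Type} (s : Finset α) (x : ι → K) (f : α → (ι → ℤ) →₀ k) :
    ev x (∑ j ∈ s, f j) = ∑ j ∈ s, ev x (f j) := by
  classical
  induction s using Finset.induction_on with
  | empty => rw [Finset.sum_empty, Finset.sum_empty, ev_zero]
  | insert a s ha ih => rw [Finset.sum_insert ha, Finset.sum_insert ha, ev_add, ih]

theorem gr_single (x : ι → K) (m : ι → ℤ) (a : k) (i : ι) :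
    gr x (Finsupp.single m a) i = algebraMap k K a * ((m i : ℤ) : K) * mono x m := by
  unfold gr
  rw [Finsupp.sum_single_index]
  rw [map_zero, zero_mul, zero_mul]

theorem gr_zero (x : ι → K) (i : ι) : gr x (0 : (ι → ℤ) →₀ k) i = 0 := Finsupp.sum_zero_index

theorem gr_add (x : ι → K) (f g : (ι → ℤ) →₀ k) (i : ι) :
    gr x (f + g) i = gr x f i + gr x g i := by
  classical
  unfold gr
  rw [Finsupp.sum_add_index']
  · intro m; rw [map_zero, zero_mul, zero_mul]
  · intro m a b; rw [map_add]; ring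

theorem gr_sum {α : Type} (s : Finset α) (x : ι → K) (f : α → (ι → ℤ) →₀ k) (i : ι) :
    gr x (∑ j ∈ s, f j) i = ∑ j ∈ s, gr x (f j) i := by
  classical
  induction s using Finset.induction_on with
  | empty => rw [Finset.sum_empty, Finset.sum_empty, gr_zero]
  | insert a s ha ih => rw [Finset.sum_insert ha, Finset.sum_insert ha, gr_add, ih]

theorem ev_lp (x : ι → K) (m : κ → ι → ℤ) (a : κ → k) :
    ev x (lp m a) = ∑ j, algebraMap k K (a j) * mono x (m j) := by
  unfold lp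
  rw [ev_sum]
  exact Finset.sum_congr rfl fun j _ => ev_single x (m j) (a j)

theorem lp_apply {m : κ → ι → ℤ} (hm : Function.Injective m) (a : κ → k) (j : κ) :
    lp m a (m j) = a j := by
  classical
  unfold lp
  rw [Finsupp.finsetSum_apply, Finset.sum_eq_single j]
  · rw [Finsupp.single_eq_same]
  · intro b _ hb
    rw [Finsupp.single_eq_of_ne]
    exact fun h => hb (hm h.symm)
  · intro h
    exact absurd (Finset.mem_univ _) h

theorem mem_support_lp {m : κ → ι → ℤ} (hm : Function.Injective m) {a : κ → k}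
    (ha : ∀ j, a j ≠ 0) (j : κ) : m j ∈ (lp m a).support := by
  rw [Finsupp.mem_support_iff, lp_apply hm]
  exact ha j

theorem exists_of_mem_support {m : κ → ι → ℤ} {a : κ → k} {w : ι → ℤ}
    (h : w ∈ (lp m a).support) : ∃ j, w = m j := by
  classical
  by_contra hcon
  push Not at hcon
  rw [Finsupp.mem_support_iff] at h
  apply h
  unfold lp
  rw [Finsupp.finsetSum_apply]
  refine Finset.sum_eq_zero fun j _ => ?_
  rw [Finsupp.single_eq_of_ne]
  exact hcon j

/-- the minimum -/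
theorem mn_lp [Nonempty κ] {m : κ → ι → ℤ} (hm : Function.Injective m) {a : κ → k}
    (ha : ∀ j, a j ≠ 0) (v : ι → ℤ) :
    (∀ j, mn v (lp m a) ≤ m j ⬝ᵥ v) ∧ ∃ j, m j ⬝ᵥ v = mn v (lp m a) := by
  refine ⟨fun j => mn_le (mem_support_lp hm ha j), ?_⟩
  have h0 : lp m a ≠ 0 := by
    intro h
    have h1 := mem_support_lp hm ha (Classical.arbitrary κ)
    rw [h] at h1
    simp at h1
  obtain ⟨w, hw, h1⟩ := exists_mn h0 v
  obtain ⟨j, rfl⟩ := exists_of_mem_support hw
  exact ⟨j, h1⟩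

open scoped Classical in
theorem ini_lp (m : κ → ι → ℤ) (a : κ → k) (v : ι → ℤ) :
    ini v (lp m a) = ∑ j, if m j ⬝ᵥ v = mn v (lp m a) then Finsupp.single (m j) (a j) else 0 := by
  have h : ∀ M : ℤ, (lp m a).filter (fun w => w ⬝ᵥ v = M) =
      ∑ j, if m j ⬝ᵥ v = M then Finsupp.single (m j) (a j) else 0 := by
    intro M
    unfold lp
    rw [Finsupp.filter_sum]
    refine Finset.sum_congr rfl fun j _ => ?_
    split_ifs with hj
    · exact Finsupp.filter_single_of_pos _ hj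
    · exact Finsupp.filter_single_of_neg _ hj
  exact h _

open scoped Classical in
theorem ev_ini_lp (x : ι → K) (m : κ → ι → ℤ) (a : κ → k) (v : ι → ℤ) :
    ev x (ini v (lp m a)) = ∑ j, if m j ⬝ᵥ v = mn v (lp m a) then
      algebraMap k K (a j) * mono x (m j) else 0 := by
  rw [ini_lp, ev_sum]
  refine Finset.sum_congr rfl fun j _ => ?_
  split_ifs with hj
  · exact ev_single _ _ _
  · exact ev_zero _

open scoped Classical in
theorem gr_ini_lp (x : ι → K) (m : κ → ι → ℤ) (a : κ → k) (v : ι → ℤ) (i : ι) :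
    gr x (ini v (lp m a)) i = ∑ j, if m j ⬝ᵥ v = mn v (lp m a) then
      algebraMap k K (a j) * ((m j i : ℤ) : K) * mono x (m j) else 0 := by
  rw [ini_lp, gr_sum]
  refine Finset.sum_congr rfl fun j _ => ?_
  split_ifs with hj
  · exact gr_single _ _ _ _
  · exact gr_zero _ _

end

section

variable {ι : Type} [Fintype ι] {k : Type} [Field k]

/-- three terms, the last one constant -/
theorem ini_three (m1 m2 : ι → ℤ) (h1 : m1 ≠ 0) (h2 : m2 ≠ 0) (h12 : m1 ≠ m2) (a1 a2 a3 : k)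
    (ha1 : a1 ≠ 0) (ha2 : a2 ≠ 0) (ha3 : a3 ≠ 0) (v : ι → ℤ) (c : ι → k) :
    ∃ M : ℤ, (M ≤ m1 ⬝ᵥ v ∧ M ≤ m2 ⬝ᵥ v ∧ M ≤ 0) ∧
      (m1 ⬝ᵥ v = M ∨ m2 ⬝ᵥ v = M ∨ 0 = M) ∧
      ev c (ini v (lp (κ := Fin 3) ![m1, m2, 0] ![a1, a2, a3])) =
        (if m1 ⬝ᵥ v = M then a1 * mono c m1 else 0) + (if m2 ⬝ᵥ v = M then a2 * mono c m2 else 0) +
          (if 0 = M then a3 else 0) ∧
      ∀ i, gr c (ini v (lp (κ := Fin 3) ![m1, m2, 0] ![a1, a2, a3])) i =
        (if m1 ⬝ᵥ v = M then a1 * mono c m1 * ((m1 i : ℤ) : k) else 0) +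
          (if m2 ⬝ᵥ v = M then a2 * mono c m2 * ((m2 i : ℤ) : k) else 0) := by
  have hinj : Function.Injective ![m1, m2, 0] := by
    intro i j hij
    fin_cases i <;> fin_cases j <;> simp at hij ⊢
    · exact h12 hij
    · exact h1 hij
    · exact h12 hij.symm
    · exact h2 hij
    · exact h1 hij.symm
    · exact h2 hij.symm
  have hne : ∀ j, (![a1, a2, a3] : Fin 3 → k) j ≠ 0 := by
    intro j
    fin_cases j
    · exact ha1
    · exact ha2
    · exact ha3
  obtain ⟨hle, j, hj⟩ := mn_lp hinj hne v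
  refine ⟨mn v (lp (κ := Fin 3) ![m1, m2, 0] ![a1, a2, a3]), ⟨hle 0, hle 1, ?_⟩, ?_, ?_, fun i => ?_⟩
  · have := hle 2
    simpa using this
  · fin_cases j
    · exact Or.inl hj
    · exact Or.inr (Or.inl hj)
    · right; right
      simpa using hj
  · rw [ev_ini_lp, Fin.sum_univ_three]
    obtain ⟨M, hM⟩ : ∃ M, M = mn v (lp (κ := Fin 3) ![m1, m2, 0] ![a1, a2, a3]) := ⟨_, rfl⟩
    rw [← hM]
    change (if m1 ⬝ᵥ v = M then a1 * mono c m1 else 0) +
      (if m2 ⬝ᵥ v = M then a2 * mono c m2 else 0) +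
      (if (0 : ι → ℤ) ⬝ᵥ v = M then a3 * mono c (0 : ι → ℤ) else 0) = _
    rw [mono_zero, mul_one]
    congr 1
    by_cases hh : 0 = M
    · rw [if_pos hh, if_pos (by rw [zero_dotProduct]; exact hh)]
    · rw [if_neg hh, if_neg (by rw [zero_dotProduct]; exact hh)]
  · rw [gr_ini_lp, Fin.sum_univ_three]
    obtain ⟨M, hM⟩ : ∃ M, M = mn v (lp (κ := Fin 3) ![m1, m2, 0] ![a1, a2, a3]) := ⟨_, rfl⟩
    rw [← hM]
    change (if m1 ⬝ᵥ v = M then a1 * ((m1 i : ℤ) : k) * mono c m1 else 0) +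
      (if m2 ⬝ᵥ v = M then a2 * ((m2 i : ℤ) : k) * mono c m2 else 0) +
      (if (0 : ι → ℤ) ⬝ᵥ v = M then a3 * ((((0 : ι → ℤ) i) : ℤ) : k) * mono c (0 : ι → ℤ)
        else 0) = _
    have h3 : (if (0 : ι → ℤ) ⬝ᵥ v = M then a3 * ((((0 : ι → ℤ) i) : ℤ) : k) *
        mono c (0 : ι → ℤ) else 0) = 0 := by
      rw [Pi.zero_apply, Int.cast_zero, mul_zero, zero_mul, ite_self]
    rw [h3, add_zero]
    congr 1
    · by_cases hh : m1 ⬝ᵥ v = M
      · rw [if_pos hh, if_pos hh]
        ring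
      · rw [if_neg hh, if_neg hh]
    · by_cases hh : m2 ⬝ᵥ v = M
      · rw [if_pos hh, if_pos hh]
        ring
      · rw [if_neg hh, if_neg hh]

end

end Pool.Agent.K4H25.GQ
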