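import Pool.Agent.K4H25.GQ.Lin

/-!
Products of lines in a torus, pulled back under an isogeny: nondegeneracy.
-/

set_option autoImplicit false
set_option linter.overlappingInstances false
set_option linter.unusedSectionVars false
set_option linter.unusedVariables false
set_option maxHeartbeats 4000000
set_option synthInstance.maxHeartbeats 400000

open FF IntermediateField Pool.Agent.W603.LV Pool.Agent.W619.PQ Pool.Agent.R885 Pool.Agent.R885.N

namespace Pool.Agent.K4H25.GQ

section

variable {k K : Type} [Field k] [CharZero k] [IsAlgClosed k] [Field K] [Algebra k K] {n r : ℕ}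

/-- the base point -/
def bas {S : Fin n → Finset k} (a0 : ∀ i, S i) (p : Σ i, S i) : Σ i, S i := ⟨p.1, a0 p.1⟩

/-- the equations -/
noncomputable def eqn {S : Fin n → Finset k} (A : (Σ i, S i) → Fin r → ℤ) (b : (Σ i, S i) → k)
    (p p' : Σ i, S i) : (Fin r → ℤ) →₀ k :=
  lp (κ := Fin 3) ![A p, A p', 0] ![b p, - b p', (p.2 : k) - p'.2]

theorem ev_eqn {S : Fin n → Finset k} {A : (Σ i, S i) → Fin r → ℤ} {b : (Σ i, S i) → k}
    {x : Fin r → K} {t : Fin n → K}
    (hx : ∀ p : Σ i, S i, algebraMap k K (b p) * mono x (A p) = t p.1 - algebraMap k K p.2)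
    (p p' : Σ i, S i) (h : p.1 = p'.1) : ev x (eqn A b p p') = 0 := by
  unfold eqn
  rw [ev_lp, Fin.sum_univ_three]
  simp only [Matrix.cons_val_zero, Matrix.cons_val_one, Matrix.cons_val, mono_zero, map_neg,
    map_sub, mul_one]
  rw [neg_mul, hx, hx]
  have ht : t p.1 = t p'.1 := by rw [h]
  linear_combination ht

theorem tri {S : Fin n → Finset k} {A : (Σ i, S i) → Fin r → ℤ} {b : (Σ i, S i) → k}
    (hb : ∀ p, b p ≠ 0) (hA0 : ∀ p, A p ≠ 0) (hA : Function.Injective A)
    (p p' : Σ i, S i) (hpp : (p.2 : k) ≠ p'.2) (v : Fin r → ℤ) (c : Fin r → k) :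
    ∃ M : ℤ, (M ≤ A p ⬝ᵥ v ∧ M ≤ A p' ⬝ᵥ v ∧ M ≤ 0) ∧
      (A p ⬝ᵥ v = M ∨ A p' ⬝ᵥ v = M ∨ 0 = M) ∧
      ev c (ini v (eqn A b p p')) =
        (if A p ⬝ᵥ v = M then b p * mono c (A p) else 0) +
          (if A p' ⬝ᵥ v = M then - b p' * mono c (A p') else 0) +
          (if 0 = M then (p.2 : k) - p'.2 else 0) ∧
      ∀ i, gr c (ini v (eqn A b p p')) i =
        (if A p ⬝ᵥ v = M then b p * mono c (A p) else 0) * ((A p i : ℤ) : k) +
          (if A p' ⬝ᵥ v = M then - b p' * mono c (A p') else 0) * ((A p' i : ℤ) : k) := by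
  have hne : p ≠ p' := fun h => hpp (by rw [h])
  obtain ⟨M, h1, h2, h3, h4⟩ := ini_three (A p) (A p') (hA0 p) (hA0 p') (fun h => hne (hA h))
    (b p) (- b p') ((p.2 : k) - p'.2) (hb p) (neg_ne_zero.2 (hb p')) (sub_ne_zero.2 hpp) v c
  refine ⟨M, h1, h2, ?_, fun i => ?_⟩
  · unfold eqn
    rw [h3]
  · unfold eqn
    rw [h4 i]
    simp only [ite_mul, zero_mul]

/-- **The system is nondegenerate.** -/
theorem nondeg {S : Fin n → Finset k} {A : (Σ i, S i) → Fin r → ℤ} {b : (Σ i, S i) → k}
    (hb : ∀ p, b p ≠ 0) (hli : LinearIndependent k fun p i => ((A p i : ℤ) : k))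
    {x : Fin r → K} {t : Fin n → K}
    (hx : ∀ p : Σ i, S i, algebraMap k K (b p) * mono x (A p) = t p.1 - algebraMap k K p.2)
    (a0 : ∀ i, S i) {q : ℕ} (e : Fin q ≃ {p : Σ i, S i // p.2 ≠ a0 p.1})
    (h : Fin 0 → (Fin r → ℤ) →₀ k) :
    AlongP (fun l => eqn A b (e l).1 (bas a0 (e l).1)) h x := by
  classical
  have hA0 : ∀ p, A p ≠ 0 := by
    intro p h0
    apply hli.ne_zero p
    funext i
    rw [h0]
    simp
  have hA : Function.Injective A := by
    intro p p' hpp
    apply hli.injective
    beta_reduce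
    rw [hpp]
  intro V v c hc hg hV
  have hVe : IsEmpty V := ⟨fun j => j.1.elim0⟩
  have key : LinearIndependent k (fun l => gr c (ini v (eqn A b (e l).1 (bas a0 (e l).1)))) := by
    have hne : ∀ l, (((e l).1.2 : k)) ≠ (bas a0 (e l).1).2 := by
      intro l h0
      exact (e l).2 (Subtype.ext h0)
    choose M hM1 hM2 hM3 hM4 using fun l : Fin q =>
      tri hb hA0 hA (e l).1 (bas a0 (e l).1) (hne l) v c
    have hval : ∀ p, b p * mono c (A p) ≠ 0 := fun p => mul_ne_zero (hb p) (mono_ne hc _)
    rw [Fintype.linearIndependent_iff]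
    intro lam hlam
    rw [Fintype.linearIndependent_iff] at hli
    -- the coefficients
    obtain ⟨al, hal⟩ : ∃ al : Fin q → k, ∀ l, al l =
      if A (e l).1 ⬝ᵥ v = M l then b (e l).1 * mono c (A (e l).1) else 0 := ⟨_, fun l => rfl⟩
    obtain ⟨be, hbe⟩ : ∃ be : Fin q → k, ∀ l, be l =
      if A (bas a0 (e l).1) ⬝ᵥ v = M l then - b (bas a0 (e l).1) * mono c (A (bas a0 (e l).1))
        else 0 := ⟨_, fun l => rfl⟩
    have hsum : ∀ i, ∑ l, lam l * (al l * ((A (e l).1 i : ℤ) : k) +
        be l * ((A (bas a0 (e l).1) i : ℤ) : k)) = 0 := by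
      intro i
      have h1 := congrFun hlam i
      rw [Finset.sum_apply] at h1
      refine Eq.trans (Finset.sum_congr rfl fun l _ => ?_) h1
      rw [Pi.smul_apply, smul_eq_mul, hM4 l i, hal, hbe]
    obtain ⟨mu, hmu⟩ : ∃ mu : (Σ i, S i) → k, ∀ p, mu p =
      (∑ l, if (e l).1 = p then lam l * al l else 0) +
        ∑ l, if bas a0 (e l).1 = p then lam l * be l else 0 := ⟨_, fun p => rfl⟩
    have hmu0 : ∀ p, mu p = 0 := by
      refine hli mu ?_
      funext i
      rw [Finset.sum_apply]
      have h1 : ∀ p, (mu p • fun i => ((A p i : ℤ) : k)) i =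
          (∑ l, if (e l).1 = p then lam l * al l * ((A p i : ℤ) : k) else 0) +
          ∑ l, if bas a0 (e l).1 = p then lam l * be l * ((A p i : ℤ) : k) else 0 := by
        intro p
        rw [Pi.smul_apply, smul_eq_mul, hmu, add_mul, Finset.sum_mul, Finset.sum_mul]
        congr 1
        · exact Finset.sum_congr rfl fun l _ => by rw [ite_mul, zero_mul]
        · exact Finset.sum_congr rfl fun l _ => by rw [ite_mul, zero_mul]
      rw [Finset.sum_congr rfl fun p _ => h1 p, Finset.sum_add_distrib, Finset.sum_comm,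
        Finset.sum_comm (f := fun p l => if bas a0 (e l).1 = p then
          lam l * be l * ((A p i : ℤ) : k) else 0), ← Finset.sum_add_distrib]
      refine Eq.trans (Finset.sum_congr rfl fun l _ => ?_) (hsum i)
      rw [Finset.sum_ite_eq, Finset.sum_ite_eq, if_pos (Finset.mem_univ _),
        if_pos (Finset.mem_univ _)]
      ring
    have hbas : ∀ l l', bas a0 (e l).1 ≠ (e l').1 := by
      intro l l' h0
      apply (e l').2
      rw [← h0]
      rfl
    -- the first coefficients
    have hF : ∀ l, lam l * al l = 0 := by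
      intro l
      have h1 := hmu0 (e l).1
      rw [hmu, Finset.sum_eq_single l, if_pos rfl, Finset.sum_eq_zero, add_zero] at h1
      · exact h1
      · intro l' _
        exact if_neg (hbas l' l)
      · intro l' _ hl'
        exact if_neg fun h0 => hl' (e.injective (Subtype.ext h0))
      · intro h0
        exact absurd (Finset.mem_univ _) h0
    have hG : ∀ l, ∑ l', (if bas a0 (e l').1 = bas a0 (e l).1 then lam l' * be l' else 0) = 0 := by
      intro l
      have h1 := hmu0 (bas a0 (e l).1)
      rw [hmu, Finset.sum_eq_zero, zero_add] at h1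
      · exact h1
      · intro l' _
        exact if_neg fun h0 => hbas l l' h0.symm
    -- a coefficient for which the first term is not initial
    have hlam1 : ∀ l, A (e l).1 ⬝ᵥ v = M l → lam l = 0 := by
      intro l hl
      have h1 := hF l
      rw [hal, if_pos hl] at h1
      exact (mul_eq_zero.1 h1).resolve_right (hval _)
    have hcase : ∀ l, A (e l).1 ⬝ᵥ v ≠ M l →
        0 < A (e l).1 ⬝ᵥ v ∧ A (bas a0 (e l).1) ⬝ᵥ v = 0 ∧ M l = 0 := by
      intro l hl
      have h1 := hg _ (ev_eqn hx (e l).1 (bas a0 (e l).1) rfl)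
      rw [hM3 l, if_neg hl, zero_add] at h1
      have hv2 : - b (bas a0 (e l).1) * mono c (A (bas a0 (e l).1)) ≠ 0 := by
        rw [neg_mul]
        exact neg_ne_zero.2 (hval _)
      have hv3 : ((e l).1.2 : k) - (bas a0 (e l).1).2 ≠ 0 := sub_ne_zero.2 (hne l)
      by_cases h2 : A (bas a0 (e l).1) ⬝ᵥ v = M l
      · by_cases h3 : 0 = M l
        · refine ⟨lt_of_le_of_ne ?_ ?_, by rw [h2, ← h3], h3.symm⟩
          · have := (hM1 l).1
            rw [← h3] at this
            exact this
          · rw [h3]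
            exact fun h => hl h.symm
        · rw [if_pos h2, if_neg h3, add_zero] at h1
          exact absurd h1 hv2
      · by_cases h3 : 0 = M l
        · rw [if_neg h2, if_pos h3, zero_add] at h1
          exact absurd h1 hv3
        · rcases hM2 l with h | h | h
          · exact absurd h hl
          · exact absurd h h2
          · exact absurd h h3
    intro l
    by_cases hl : A (e l).1 ⬝ᵥ v = M l
    · exact hlam1 l hl
    obtain ⟨h1, h2, h3⟩ := hcase l hl
    have hother : ∀ l', l' ≠ l → bas a0 (e l').1 = bas a0 (e l).1 → lam l' = 0 := by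
      intro l' hne' hb'
      by_contra hcon
      have hl' : A (e l').1 ⬝ᵥ v ≠ M l' := fun h => hcon (hlam1 l' h)
      obtain ⟨h1', -, -⟩ := hcase l' hl'
      have hfst0 := congrArg (fun p : Σ i, S i => p.1) hb'
      have hfst : (e l').1.1 = (e l).1.1 := hfst0
      have hpp : (((e l').1.2 : k)) ≠ (e l).1.2 := by
        intro h0
        apply hne'
        apply e.injective
        apply Subtype.ext
        have hsig : ∀ p p' : Σ i, S i, p.1 = p'.1 → ((p.2 : k) = p'.2) → p = p' := by
          rintro ⟨i, a⟩ ⟨i', a'⟩ h1 h2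
          change i = i' at h1
          subst h1
          change (a : k) = a' at h2
          rw [Subtype.ext h2]
        exact hsig _ _ hfst h0
      obtain ⟨M', k1, k2, k3, -⟩ := tri hb hA0 hA (e l').1 (e l).1 hpp v c
      have k4 := hg _ (ev_eqn hx (e l').1 (e l).1 hfst)
      have hM' : M' = 0 := by
        rcases k2 with h | h | h
        · have := k1.2.2; omega
        · have := k1.2.2; omega
        · exact h.symm
      rw [k3, hM', if_neg h1'.ne', if_neg h1.ne', if_pos rfl, zero_add, zero_add] at k4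
      exact hpp (sub_eq_zero.1 k4)
    have h4 := hG l
    rw [Finset.sum_eq_single l, if_pos rfl, hbe, if_pos (h2.trans h3.symm)] at h4
    · refine (mul_eq_zero.1 h4).resolve_right ?_
      rw [neg_mul]
      exact neg_ne_zero.2 (hval _)
    · intro l' _ hl'
      split_ifs with hb'
      · rw [hother l' hl' hb', zero_mul]
      · rfl
    · intro h0
      exact absurd (Finset.mem_univ _) h0
  rw [Fintype.linearIndependent_iff] at key ⊢
  intro lam hlam
  rw [Fintype.sum_sum_type] at hlam
  simp only [Sum.elim_inl, Sum.elim_inr, Finset.univ_eq_empty, Finset.sum_empty, add_zero] at hlam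
  have h1 := key (fun l => lam (Sum.inl l)) hlam
  rintro (l | j)
  · exact h1 l
  · exact (hVe.false j).elim

end

end Pool.Agent.K4H25.GQ
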