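import Pool.Agent.K4H25.GQ.Lin2

/-!
Multiplicative groups of functions modulo constants.
-/

set_option autoImplicit false
set_option linter.overlappingInstances false
set_option linter.unusedSectionVars false
set_option linter.unusedVariables false
set_option maxHeartbeats 4000000
set_option synthInstance.maxHeartbeats 400000

open FF IntermediateField Pool.Agent.R885 MvPolynomial

namespace Pool.Agent.K4H25.GQ

section

variable {k K : Type} [Field k] [CharZero k] [IsAlgClosed k] [Field K] [Algebra k K] {n : ℕ}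

theorem sub_const_ne {t : Fin n → K} (ht : AlgebraicIndependent k t) (i : Fin n) (a : k) :
    t i - algebraMap k K a ≠ 0 := by
  intro h
  have h1 := ht.transcendental i
  apply h1
  rw [sub_eq_zero.1 h]
  exact isAlgebraic_algebraMap a

theorem mult_indep {t : Fin n → K} (ht : AlgebraicIndependent k t) (S : Fin n → Finset k)
    (m : (Σ i, S i) → ℤ) (c : k)
    (h : ∏ p : Σ i, S i, (t p.1 - algebraMap k K p.2) ^ m p = algebraMap k K c) : m = 0 := by
  classical
  have hne : ∀ p : Σ i, S i, t p.1 - algebraMap k K p.2 ≠ 0 := fun p => sub_const_ne ht _ _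
  let P : MvPolynomial (Fin n) k := ∏ p : Σ i, S i, (X p.1 - C (p.2 : k)) ^ (m p).toNat
  let N : MvPolynomial (Fin n) k := ∏ p : Σ i, S i, (X p.1 - C (p.2 : k)) ^ (-(m p)).toNat
  have hP : aeval t P = ∏ p : Σ i, S i, (t p.1 - algebraMap k K p.2) ^ (m p).toNat := by
    simp only [P, map_prod, map_pow, map_sub, aeval_X, aeval_C]
  have hN : aeval t N = ∏ p : Σ i, S i, (t p.1 - algebraMap k K p.2) ^ (-(m p)).toNat := by
    simp only [N, map_prod, map_pow, map_sub, aeval_X, aeval_C]
  have hPN : aeval t P = algebraMap k K c * aeval t N := by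
    rw [hP, hN, ← h, ← Finset.prod_mul_distrib]
    refine Finset.prod_congr rfl fun p _ => ?_
    rw [← zpow_natCast, ← zpow_natCast, ← zpow_add₀ (hne p)]
    congr 1
    omega
  have hPN' : P = C c * N := by
    apply ht
    rw [hPN, map_mul, aeval_C]
  have hb : ∀ i, ∃ b : k, b ∉ S i := fun i => Infinite.exists_notMem_finset (S i)
  choose b hb using hb
  funext p0
  let z : Fin n → k := fun i => if i = p0.1 then (p0.2 : k) else b i
  have hz : ∀ p : Σ i, S i, z p.1 - (p.2 : k) = 0 → p = p0 := by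
    rintro ⟨i, a⟩ hp
    obtain ⟨i0, a0⟩ := p0
    change (if i = i0 then (a0 : k) else b i) - (a : k) = 0 at hp
    by_cases hi : i = i0
    · subst hi
      rw [if_pos rfl] at hp
      rw [Subtype.ext (sub_eq_zero.1 hp)]
    · rw [if_neg hi] at hp
      exact absurd (by rw [sub_eq_zero.1 hp]; exact a.2) (hb i)
  have hz0 : z p0.1 - (p0.2 : k) = 0 := by
    change (if p0.1 = p0.1 then (p0.2 : k) else b p0.1) - (p0.2 : k) = 0
    rw [if_pos rfl, sub_self]
  have eP : eval z P = ∏ p : Σ i, S i, (z p.1 - (p.2 : k)) ^ (m p).toNat := by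
    simp only [P, map_prod, map_pow, map_sub, eval_X, eval_C]
  have eN : eval z N = ∏ p : Σ i, S i, (z p.1 - (p.2 : k)) ^ (-(m p)).toNat := by
    simp only [N, map_prod, map_pow, map_sub, eval_X, eval_C]
  have heq : eval z P = c * eval z N := by rw [hPN', map_mul, eval_C]
  have hc : c ≠ 0 := by
    rintro rfl
    rw [map_zero] at h
    exact Finset.prod_ne_zero_iff.2 (fun p _ => zpow_ne_zero _ (hne p)) h
  rw [Pi.zero_apply]
  by_contra hm
  rcases lt_or_gt_of_ne hm with hlt | hgt
  · -- negative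
    have h1 : eval z N = 0 := by
      rw [eN]
      refine Finset.prod_eq_zero (Finset.mem_univ p0) ?_
      rw [hz0, zero_pow]
      omega
    have h2 : eval z P ≠ 0 := by
      rw [eP]
      refine Finset.prod_ne_zero_iff.2 fun p _ => ?_
      by_cases hp : p = p0
      · subst hp
        rw [show (m p).toNat = 0 by omega, pow_zero]
        exact one_ne_zero
      · exact pow_ne_zero _ fun h => hp (hz p h)
    rw [heq, h1, mul_zero] at h2
    exact h2 rfl
  · have h1 : eval z P = 0 := by
      rw [eP]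
      refine Finset.prod_eq_zero (Finset.mem_univ p0) ?_
      rw [hz0, zero_pow]
      omega
    have h2 : eval z N ≠ 0 := by
      rw [eN]
      refine Finset.prod_ne_zero_iff.2 fun p _ => ?_
      by_cases hp : p = p0
      · subst hp
        rw [show (-(m p)).toNat = 0 by omega, pow_zero]
        exact one_ne_zero
      · exact pow_ne_zero _ fun h => hp (hz p h)
    rw [h1] at heq
    exact h2 ((mul_eq_zero.1 heq.symm).resolve_left hc)

end

section

variable (k K : Type) [Field k] [Field K] [Algebra k K]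

/-- the constants -/
def cst : Subgroup Kˣ := (Units.map (algebraMap k K : k →* K)).range

/-- functions modulo constants, additively -/
def FMod : Type := Additive (Kˣ ⧸ cst k K)

noncomputable instance : AddCommGroup (FMod k K) :=
  inferInstanceAs (AddCommGroup (Additive (Kˣ ⧸ cst k K)))

/-- the class of a function, as a homomorphism -/
noncomputable def clHom : Additive Kˣ →+ FMod k K :=
  MonoidHom.toAdditive (QuotientGroup.mk' (cst k K))

variable {K}

/-- the class of a function -/
noncomputable def cl (z : Kˣ) : FMod k K := clHom k K (Additive.ofMul z)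

theorem cl_surj (x : FMod k K) : ∃ z, cl k z = x := by
  obtain ⟨z, hz⟩ := QuotientGroup.mk_surjective (Additive.toMul (x : Additive (Kˣ ⧸ cst k K)))
  refine ⟨z, ?_⟩
  change Additive.ofMul (QuotientGroup.mk z) = x
  rw [hz]
  rfl

theorem cl_mul (z z' : Kˣ) : cl k (z * z') = cl k z + cl k z' := by
  unfold cl
  rw [ofMul_mul, map_add]

theorem cl_one : cl k (1 : Kˣ) = 0 := by
  unfold cl
  rw [ofMul_one, map_zero]

theorem cl_inv (z : Kˣ) : cl k z⁻¹ = - cl k z := by
  unfold cl
  rw [ofMul_inv, map_neg]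

theorem cl_zpow (z : Kˣ) (m : ℤ) : cl k (z ^ m) = m • cl k z := by
  unfold cl
  rw [ofMul_zpow, map_zsmul]

theorem cl_prod {α : Type} (s : Finset α) (z : α → Kˣ) :
    cl k (∏ j ∈ s, z j) = ∑ j ∈ s, cl k (z j) := by
  classical
  induction s using Finset.induction_on with
  | empty => rw [Finset.prod_empty, Finset.sum_empty, cl_one]
  | insert a s ha ih => rw [Finset.prod_insert ha, Finset.sum_insert ha, cl_mul, ih]

variable {k}

theorem cl_eq_zero {z : Kˣ} : cl k z = 0 ↔ ∃ c : k, c ≠ 0 ∧ (z : K) = algebraMap k K c := by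
  have h1 : cl k z = 0 ↔ z ∈ cst k K := by
    change (Additive.ofMul (QuotientGroup.mk z : Kˣ ⧸ cst k K)) = Additive.ofMul 1 ↔ _
    rw [Additive.ofMul.injective.eq_iff, QuotientGroup.eq_one_iff]
  rw [h1]
  constructor
  · rintro ⟨c, hc⟩
    exact ⟨c, c.ne_zero, by rw [← hc]; rfl⟩
  · rintro ⟨c, hc, h⟩
    exact ⟨Units.mk0 c hc, Units.ext h.symm⟩

theorem cl_eq {z z' : Kˣ} : cl k z = cl k z' ↔
    ∃ c : k, c ≠ 0 ∧ (z : K) = algebraMap k K c * z' := by
  have h1 : cl k z = cl k z' ↔ cl k (z * z'⁻¹) = 0 := by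
    rw [cl_mul, cl_inv, ← sub_eq_add_neg, sub_eq_zero]
  rw [h1, cl_eq_zero]
  refine exists_congr fun c => and_congr_right fun _ => ?_
  rw [Units.val_mul, Units.val_inv_eq_inv_val, ← div_eq_mul_inv, div_eq_iff z'.ne_zero]

theorem fmod_torsion [IsAlgClosed k] : Module.IsTorsionFree ℤ (FMod k K) := by
  refine Module.IsTorsionFree.of_smul_eq_zero fun m x h => ?_
  obtain ⟨z, rfl⟩ := cl_surj k x
  by_contra hcon
  push Not at hcon
  rw [← cl_zpow, cl_eq_zero] at h
  obtain ⟨c, hc, h⟩ := h
  apply hcon.2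
  -- a natural power
  obtain ⟨N, hN, d, hd, hd'⟩ : ∃ N : ℕ, 0 < N ∧ ∃ d : k, d ≠ 0 ∧ (z : K) ^ N = algebraMap k K d := by
    rcases lt_or_gt_of_ne hcon.1 with h0 | h0
    · refine ⟨(-m).toNat, by omega, c⁻¹, inv_ne_zero hc, ?_⟩
      rw [map_inv₀, ← h, ← zpow_natCast, Int.toNat_of_nonneg (by omega), zpow_neg]
      simp
    · refine ⟨m.toNat, by omega, c, hc, ?_⟩
      rw [← h, ← zpow_natCast, Int.toNat_of_nonneg (by omega)]
      simp
  have halg : IsAlgebraic k (z : K) := by
    refine IsAlgebraic.of_pow hN ?_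
    rw [hd']
    exact isAlgebraic_algebraMap d
  obtain ⟨a, ha⟩ := minpoly.mem_range_of_degree_eq_one k (z : K)
    (IsAlgClosed.degree_eq_one_of_irreducible k (minpoly.irreducible halg.isIntegral))
  refine cl_eq_zero.2 ⟨a, ?_, ha.symm⟩
  rintro rfl
  rw [map_zero] at ha
  exact z.ne_zero ha.symm

end

end Pool.Agent.K4H25.GQ
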